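import Mathlib
import Pool.Agent.N290.RJ.Stm
import Pool.Agent.N290.RJ.Un

/-!
# Project RJ (helper290): C4, unitary maps preserve volume (helper271, after N767.RI.C4)
-/

set_option autoImplicit false

open Complex MeasureTheory Set Filter Topology
open scoped ENNReal

namespace Pool.Agent.N271.RJ

open Pool.Agent.N290.RJ

variable {d : ℕ}

theorem N_eq_zero {z : E d} (h : N z = 0) : z = 0 := by
  unfold N at h
  have h1 : 0 ≤ ‖z.1‖ ^ 2 := by positivity
  have h2 : 0 ≤ ∑ i, ‖z.2 i‖ ^ 2 := Finset.sum_nonneg fun i _ => by positivity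
  have h3 : ‖z.1‖ ^ 2 = 0 := by linarith
  have h4 : ∑ i, ‖z.2 i‖ ^ 2 = 0 := by linarith
  rw [Finset.sum_eq_zero_iff_of_nonneg (fun i _ => by positivity)] at h4
  ext1
  · simpa using h3
  · funext i
    have := h4 i (Finset.mem_univ i)
    simpa using this

theorem inj {U : E d →L[ℂ] E d} (hU : IsU U) : Function.Injective (U : E d → E d) := by
  rw [injective_iff_map_eq_zero]
  intro x hx
  apply N_eq_zero
  rw [← hU x, hx, N_zero]

/-- the unitary map as a linear equivalence -/
noncomputable def eqv {U : E d →L[ℂ] E d} (hU : IsU U) : E d ≃ₗ[ℂ] E d :=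
  LinearEquiv.ofInjectiveEndo (U : E d →ₗ[ℂ] E d) (inj hU)

theorem eqv_apply {U : E d →L[ℂ] E d} (hU : IsU U) (x : E d) : eqv hU x = U x := rfl

/-- the unitary map as a homeomorphism -/
noncomputable def homeo {U : E d →L[ℂ] E d} (hU : IsU U) : E d ≃ₜ E d :=
  (eqv hU).toContinuousLinearEquiv.toHomeomorph

theorem homeo_apply {U : E d →L[ℂ] E d} (hU : IsU U) (x : E d) : homeo hU x = U x := rfl

theorem vol_pos : 0 < volume (B d) := B_open.measure_pos volume ⟨0, zero_mem_B⟩

theorem vol_lt : volume (B d) < ⊤ := by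
  refine lt_of_le_of_lt (measure_mono (t := Metric.ball (0 : E d) 1) ?_) measure_ball_lt_top
  intro z hz
  rw [mem_B] at hz
  unfold N at hz
  have h1 := norm_nonneg z.1
  have hs : 0 ≤ ∑ i, ‖z.2 i‖ ^ 2 := Finset.sum_nonneg fun i _ => by positivity
  have h3 : ‖z.1‖ < 1 := by nlinarith
  have h4 : ‖z.2‖ < 1 := by
    rw [pi_norm_lt_iff one_pos]
    intro i
    have h5 : ‖z.2 i‖ ^ 2 ≤ ∑ i, ‖z.2 i‖ ^ 2 :=
      Finset.single_le_sum (f := fun i => ‖z.2 i‖ ^ 2) (fun i _ => by positivity)
        (Finset.mem_univ i)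
    have h6 := norm_nonneg (z.2 i)
    nlinarith
  rw [mem_ball_zero_iff, Prod.norm_def]
  exact max_lt h3 h4

theorem haar : (volume : Measure (E d)).IsAddHaarMeasure := by
  have : (volume : Measure (Fin d → ℂ)).IsAddHaarMeasure := by
    rw [volume_pi]
    infer_instance
  rw [Measure.volume_eq_prod]
  infer_instance

/-- the real linear map -/
noncomputable def unR {U : E d →L[ℂ] E d} (hU : IsU U) : E d ≃ₗ[ℝ] E d :=
  (eqv hU).restrictScalars ℝ

theorem unR_apply {U : E d →L[ℂ] E d} (hU : IsU U) (x : E d) : unR hU x = U x := rfl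

theorem map_eq {U : E d →L[ℂ] E d} (hU : IsU U) :
    Measure.map (U : E d → E d) volume = volume := by
  have := haar (d := d)
  have hdet : LinearMap.det ((unR hU : E d ≃ₗ[ℝ] E d) : E d →ₗ[ℝ] E d) ≠ 0 :=
    (LinearEquiv.isUnit_det' (unR hU)).ne_zero
  have h1 := Measure.map_linearMap_addHaar_eq_smul_addHaar (volume : Measure (E d)) hdet
  have h2 : ⇑((unR hU : E d ≃ₗ[ℝ] E d) : E d →ₗ[ℝ] E d) = (U : E d → E d) := by
    funext x
    exact unR_apply hU x
  rw [h2] at h1
  have h3 : Measure.map (U : E d → E d) volume (B d) = volume (B d) := by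
    rw [Measure.map_apply U.continuous.measurable B_meas]
    congr 1
    ext x
    exact hU.mem x
  have h4 : ENNReal.ofReal
      |(LinearMap.det ((unR hU : E d ≃ₗ[ℝ] E d) : E d →ₗ[ℝ] E d))⁻¹| * volume (B d) =
      1 * volume (B d) := by
    rw [h1, Measure.smul_apply, smul_eq_mul] at h3
    rw [one_mul, h3]
  have h5 : ENNReal.ofReal
      |(LinearMap.det ((unR hU : E d ≃ₗ[ℝ] E d) : E d →ₗ[ℝ] E d))⁻¹| = 1 :=
    (ENNReal.mul_left_inj vol_pos.ne' vol_lt.ne).1 h4
  rw [h1, h5, one_smul]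

/-- **C4** -/
theorem C4 (d : ℕ) : Pool.Agent.N290.RJ.C4 d := by
  intro U hU
  have h1 : MeasurePreserving (U : E d → E d) (volume : Measure (E d)) volume :=
    ⟨U.continuous.measurable, map_eq hU⟩
  have h2 : MeasurableEmbedding (U : E d → E d) := by
    have := (homeo hU).measurableEmbedding
    exact this
  have h3 : (U : E d → E d) ⁻¹' B d = B d := by
    ext x
    exact hU.mem x
  refine ⟨h1, fun F => ?_, fun F => ?_⟩
  · have h4 := h1.setIntegral_preimage_emb h2 F (B d)
    rw [h3] at h4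
    exact h4.symm
  · have h4 := h1.setLIntegral_comp_preimage_emb h2 F (B d)
    rw [h3] at h4
    exact h4.symm

end Pool.Agent.N271.RJ
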